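import Pool.Agent.Y427.SK.Ser
import Pool.Agent.Y303.SK.XDefs

/-! Project SKX, job SER: calculus of the series in the whole space. -/

open Set Filter Topology MeasureTheory Metric
open scoped ENNReal

set_option autoImplicit false

namespace Pool.Agent.Y678.SKX

open Pool.Agent.Y5 (E3)
open Pool.Agent.Y303.SK
open Pool.Agent.Y427.SK

/-! ### Pointwise facts -/

/-- rotations as continuous linear maps -/
noncomputable def rtL (θ : ℝ) : E3 →L[ℝ] E3 :=
  LinearMap.toContinuousLinearMap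
    { toFun := fun x => rtz θ x
      map_add' := fun x y => by
        unfold rtz
        ext i; fin_cases i <;> simp <;> ring
      map_smul' := fun r x => by
        unfold rtz
        ext i; fin_cases i <;> simp <;> ring }

lemma rtL_apply (θ : ℝ) (x : E3) : rtL θ x = rtz θ x := rfl

/-- the swirl at `x` as a functional -/
noncomputable def swL (x : E3) : E3 →L[ℝ] ℝ :=
  x 0 • (EuclideanSpace.proj (1 : Fin 3) : E3 →L[ℝ] ℝ) -
    x 1 • (EuclideanSpace.proj (0 : Fin 3) : E3 →L[ℝ] ℝ)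

lemma swL_apply (x v : E3) : swL x v = x 0 * v 1 - x 1 * v 0 := by
  unfold swL
  simp

section series

variable {I : Type} {e : I → E3 → E3} {z : I → ℝ}

lemma ser_axi (h : ∀ a, CS univ (e a)) (hp : ∀ a, Axi (e a))
    (hs : ∀ k : ℕ, Summable (fun a => |z a| * nk k (e a))) : Axi (ser e z) := by
  intro θ x
  have h1 := (rtL θ).map_tsum (sum0 h hs x)
  have h2 : rtz θ (ser e z x) = ∑' a, rtL θ (z a • e a x) := by
    rw [← h1]; rfl
  rw [h2]
  unfold ser
  refine tsum_congr fun a => ?_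
  rw [map_smul, rtL_apply, hp a θ x]

lemma ser_swirl (h : ∀ a, CS univ (e a)) (hp : ∀ a, ∀ x, x 0 * e a x 1 - x 1 * e a x 0 = 0)
    (hs : ∀ k : ℕ, Summable (fun a => |z a| * nk k (e a))) (x : E3) :
    x 0 * ser e z x 1 - x 1 * ser e z x 0 = 0 := by
  rw [← swL_apply]
  have h1 := (swL x).map_tsum (sum0 h hs x)
  have h2 : swL x (ser e z x) = ∑' a, swL x (z a • e a x) := by
    rw [← h1]; rfl
  rw [h2]
  have : ∀ a, swL x (z a • e a x) = 0 := by
    intro a
    rw [map_smul, swL_apply, hp a x, smul_zero]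
  simp [this]

/-! ### Norms in `L²` -/

lemma dcont {f : E3 → E3} (h : CS univ f) (k : ℕ) : Continuous (fun x => iteratedFDeriv ℝ k f x) :=
  h.smooth.continuous_iteratedFDeriv (by exact_mod_cast le_top)

lemma dint {f : E3 → E3} (h : CS univ f) (k : ℕ) :
    Integrable (fun x => ‖iteratedFDeriv ℝ k f x‖ ^ 2) := by
  refine ((dcont h k).norm.pow 2).integrable_of_hasCompactSupport ?_
  have h1 : HasCompactSupport fun x => ‖iteratedFDeriv ℝ k f x‖ := (h.cpt.iteratedFDeriv k).norm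
  exact h1.comp_left (g := fun t : ℝ => t ^ 2) (by norm_num)

lemma l2_nonneg (k : ℕ) (f : E3 → E3) : 0 ≤ l2 k f := Real.sqrt_nonneg _

lemma l2_sq (k : ℕ) (f : E3 → E3) : l2 k f ^ 2 = ∫ x, ‖iteratedFDeriv ℝ k f x‖ ^ 2 :=
  Real.sq_sqrt (integral_nonneg fun _ => sq_nonneg _)

lemma d_zero {f : E3 → E3} (h : CS univ f) (k : ℕ) (h0 : l2 k f = 0) (x : E3) :
    iteratedFDeriv ℝ k f x = 0 := by
  have h1 : ∫ x, ‖iteratedFDeriv ℝ k f x‖ ^ 2 = 0 := by rw [← l2_sq, h0]; norm_num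
  have h2 := (integral_eq_zero_iff_of_nonneg (fun _ => sq_nonneg _) (dint h k)).1 h1
  have h3 : (fun x => ‖iteratedFDeriv ℝ k f x‖ ^ 2) = fun _ => 0 :=
    (((dcont h k).norm.pow 2).ae_eq_iff_eq volume continuous_const).1 h2
  have h4 := congrFun h3 x
  simpa using h4

/-- the terms of the majorant -/
noncomputable def tm (k : ℕ) (e : I → E3 → E3) (z : I → ℝ) (a : I) (x : E3) : ℝ :=
  |z a| * (l2 k (e a))⁻¹ * ‖iteratedFDeriv ℝ k (e a) x‖ ^ 2

lemma tm_nonneg (k : ℕ) (a : I) (x : E3) : 0 ≤ tm k e z a x := by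
  unfold tm
  have := l2_nonneg k (e a)
  positivity

lemma tm_lint (h : ∀ a, CS univ (e a)) (k : ℕ) (a : I) :
    ∫⁻ x, ENNReal.ofReal (tm k e z a x) = ENNReal.ofReal (|z a| * l2 k (e a)) := by
  have h1 : Integrable (fun x => tm k e z a x) := (dint (h a) k).const_mul _
  rw [← ofReal_integral_eq_lintegral_ofReal h1 (Eventually.of_forall fun x => tm_nonneg k a x)]
  congr 1
  unfold tm
  rw [integral_const_mul, ← l2_sq]
  rcases eq_or_ne (l2 k (e a)) 0 with h0 | h0
  · rw [h0]; simp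
  · field_simp

lemma pt_fin (h : ∀ a, CS univ (e a)) (k : ℕ) (x : E3) (F : Finset I) :
    (∑ a ∈ F, |z a| * ‖iteratedFDeriv ℝ k (e a) x‖) ^ 2 ≤
      (∑ a ∈ F, |z a| * l2 k (e a)) * ∑ a ∈ F, tm k e z a x := by
  refine Finset.sum_sq_le_sum_mul_sum_of_sq_eq_mul F
    (fun a _ => mul_nonneg (abs_nonneg _) (l2_nonneg _ _)) (fun a _ => tm_nonneg k a x)
    fun a _ => ?_
  unfold tm
  rcases eq_or_ne (l2 k (e a)) 0 with h0 | h0
  · rw [d_zero (h a) k h0 x, h0]; simp
  · field_simp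

lemma pt_all (h : ∀ a, CS univ (e a)) (hs : ∀ k : ℕ, Summable (fun a => |z a| * nk k (e a)))
    (k : ℕ) (hl : Summable fun a => |z a| * l2 k (e a)) (x : E3) :
    ENNReal.ofReal (‖iteratedFDeriv ℝ k (ser e z) x‖ ^ 2) ≤
      ENNReal.ofReal (∑' a, |z a| * l2 k (e a)) * ∑' a, ENNReal.ofReal (tm k e z a x) := by
  have hsum : Summable fun a => |z a| * ‖iteratedFDeriv ℝ k (e a) x‖ := by
    refine Summable.of_nonneg_of_le (fun a => by positivity) (fun a => ?_) (hs k)
    exact mul_le_mul_of_nonneg_left (le_nk (h a) k x) (abs_nonneg _)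
  have h1 : ‖iteratedFDeriv ℝ k (ser e z) x‖ ≤ ∑' a, |z a| * ‖iteratedFDeriv ℝ k (e a) x‖ := by
    have h2 : iteratedFDeriv ℝ k (ser e z) = fun x => ∑' a, iteratedFDeriv ℝ k
        (fun y => z a • e a y) x :=
      iteratedFDeriv_tsum (N := (⊤ : ℕ∞)) (v := fun k a => |z a| * nk k (e a))
        (fun a => (cs_smul (h a) (z a)).smooth)
        (fun k _ => hs k) (fun k a x _ => term_bd h k a x) le_top
    rw [h2]
    refine tsum_of_norm_bounded hsum.hasSum fun a => ?_
    have h3 : iteratedFDeriv ℝ k (fun y => z a • e a y) x = z a • iteratedFDeriv ℝ k (e a) x :=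
      iteratedFDeriv_const_smul_apply (a := z a) (i := k) (x := x) (f := e a) (𝕜 := ℝ)
        (((h a).smooth.of_le (by exact_mod_cast le_top)).contDiffAt)
    rw [h3, norm_smul, Real.norm_eq_abs]
  have h4 : ENNReal.ofReal ((∑' a, |z a| * ‖iteratedFDeriv ℝ k (e a) x‖) ^ 2) ≤
      ENNReal.ofReal (∑' a, |z a| * l2 k (e a)) * ∑' a, ENNReal.ofReal (tm k e z a x) := by
    have h5 : Tendsto (fun F : Finset I => ENNReal.ofReal
        ((∑ a ∈ F, |z a| * ‖iteratedFDeriv ℝ k (e a) x‖) ^ 2)) atTop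
        (𝓝 (ENNReal.ofReal ((∑' a, |z a| * ‖iteratedFDeriv ℝ k (e a) x‖) ^ 2))) :=
      ENNReal.tendsto_ofReal (hsum.hasSum.pow 2)
    refine le_of_tendsto h5 (Eventually.of_forall fun F => ?_)
    refine (ENNReal.ofReal_le_ofReal (pt_fin h k x F)).trans ?_
    rw [ENNReal.ofReal_mul (Finset.sum_nonneg fun a _ => mul_nonneg (abs_nonneg _)
      (l2_nonneg _ _))]
    refine mul_le_mul' (ENNReal.ofReal_le_ofReal
      (hl.sum_le_tsum F fun a _ => mul_nonneg (abs_nonneg _) (l2_nonneg _ _))) ?_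
    rw [ENNReal.ofReal_sum_of_nonneg fun a _ => tm_nonneg k a x]
    exact ENNReal.sum_le_tsum F
  refine le_trans (ENNReal.ofReal_le_ofReal ?_) h4
  exact pow_le_pow_left₀ (norm_nonneg _) h1 2

lemma ser_l2 [Countable I] (h : ∀ a, CS univ (e a))
    (hs : ∀ k : ℕ, Summable (fun a => |z a| * nk k (e a)))
    (k : ℕ) (hl : Summable fun a => |z a| * l2 k (e a)) :
    Integrable (fun x => ‖iteratedFDeriv ℝ k (ser e z) x‖ ^ 2) volume ∧
      ∫ x, ‖iteratedFDeriv ℝ k (ser e z) x‖ ^ 2 ≤ (∑' a, |z a| * l2 k (e a)) ^ 2 := by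
  have hc : Continuous fun x => ‖iteratedFDeriv ℝ k (ser e z) x‖ ^ 2 :=
    ((ser_smooth h hs).continuous_iteratedFDeriv (by exact_mod_cast le_top)).norm.pow 2
  have hS : 0 ≤ ∑' a, |z a| * l2 k (e a) :=
    tsum_nonneg fun a => mul_nonneg (abs_nonneg _) (l2_nonneg _ _)
  have hm : ∀ a, Measurable fun x => ENNReal.ofReal (tm k e z a x) := fun a =>
    ((continuous_const.mul ((dcont (h a) k).norm.pow 2)).measurable).ennreal_ofReal
  have h1 : ∫⁻ x, ENNReal.ofReal (‖iteratedFDeriv ℝ k (ser e z) x‖ ^ 2) ≤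
      ENNReal.ofReal ((∑' a, |z a| * l2 k (e a)) ^ 2) := by
    calc ∫⁻ x, ENNReal.ofReal (‖iteratedFDeriv ℝ k (ser e z) x‖ ^ 2) ≤
        ∫⁻ x, ENNReal.ofReal (∑' a, |z a| * l2 k (e a)) *
          ∑' a, ENNReal.ofReal (tm k e z a x) := lintegral_mono fun x => pt_all h hs k hl x
      _ = ENNReal.ofReal (∑' a, |z a| * l2 k (e a)) *
          ∫⁻ x, ∑' a, ENNReal.ofReal (tm k e z a x) :=
          lintegral_const_mul _ (Measurable.ennreal_tsum fun a => hm a)
      _ = ENNReal.ofReal (∑' a, |z a| * l2 k (e a)) *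
          ∑' a, ENNReal.ofReal (|z a| * l2 k (e a)) := by
          rw [lintegral_tsum fun a => (hm a).aemeasurable]
          simp_rw [tm_lint h k]
      _ = _ := by
          rw [← ENNReal.ofReal_tsum_of_nonneg (fun a => mul_nonneg (abs_nonneg _)
            (l2_nonneg _ _)) hl, ← ENNReal.ofReal_mul hS, pow_two]
  have h2 : ∫⁻ x, ENNReal.ofReal (‖iteratedFDeriv ℝ k (ser e z) x‖ ^ 2) ≠ ⊤ :=
    ne_top_of_le_ne_top ENNReal.ofReal_ne_top h1
  refine ⟨(lintegral_ofReal_ne_top_iff_integrable hc.aestronglyMeasurable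
    (Eventually.of_forall fun x => sq_nonneg _)).1 h2, ?_⟩
  rw [integral_eq_lintegral_of_nonneg_ae (Eventually.of_forall fun x => sq_nonneg _)
    hc.aestronglyMeasurable]
  exact ENNReal.toReal_le_of_le_ofReal (sq_nonneg _) h1

end series

theorem t_SERR : S_SERR := by
  intro I _ e z h hp hor hsl
  have hs : ∀ k : ℕ, Summable (fun a => |z a| * nk k (e a)) := fun k =>
    Summable.of_nonneg_of_le (fun a => mul_nonneg (abs_nonneg _) (nk_nonneg _ _))
      (fun a => mul_le_mul_of_nonneg_left (le_add_of_nonneg_right (l2_nonneg _ _))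
        (abs_nonneg _)) (hsl k)
  have hl : ∀ k : ℕ, Summable (fun a => |z a| * l2 k (e a)) := fun k =>
    Summable.of_nonneg_of_le (fun a => mul_nonneg (abs_nonneg _) (l2_nonneg _ _))
      (fun a => mul_le_mul_of_nonneg_left (le_add_of_nonneg_left (nk_nonneg _ _))
        (abs_nonneg _)) (hsl k)
  exact ⟨ser_smooth h hs, ⟨ser_axi h (fun a => (hp a).axi) hs,
    ser_swirl h (fun a => (hp a).swirl) hs⟩, ser_iter h hs,
    fun k => ser_l2 h hs k (hl k), ser_dv h hs, ser_ipr h hs hor, ser_dirf h hs, ser_adv h hs⟩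

end Pool.Agent.Y678.SKX
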